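import Pool.Agent.MP_1e9c11_gt.H81.Heil

/-! A body of width one with smaller volume than Heil's body. -/

open MeasureTheory Set

namespace Pool.Agent.MP_1e9c11_gt.H81


/-- The planar convex set bounded by the profile curve. -/
def okS : Set (ℝ × ℝ) :=
  {q | (∀ v ∈ Icc (0 : ℝ) (24 / 289 : ℝ), q.1 + 2 * (289 / 287 : ℝ) * v * q.2 ≤ (82945 / 165886 : ℝ) + (289 / 287 : ℝ) * v ^ 2) ∧
    ∀ v ∈ Icc (24 / 289 : ℝ) (144840 / 1143473 : ℝ), 2 * v * q.2 + Real.sqrt (1 - 2 * v ^ 2) * (q.1 + (82945 / 165886 : ℝ)) ≤ 1}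

theorem okS_closed : IsClosed okS := by
  refine IsClosed.and ?_ ?_
  · rw [show {q : ℝ × ℝ | ∀ v ∈ Icc (0 : ℝ) (24 / 289 : ℝ), q.1 + 2 * (289 / 287 : ℝ) * v * q.2 ≤ (82945 / 165886 : ℝ) + (289 / 287 : ℝ) * v ^ 2} =
      ⋂ v ∈ Icc (0 : ℝ) (24 / 289 : ℝ), {q : ℝ × ℝ | q.1 + 2 * (289 / 287 : ℝ) * v * q.2 ≤ (82945 / 165886 : ℝ) + (289 / 287 : ℝ) * v ^ 2} by ext; simp]
    exact isClosed_biInter fun v _ => isClosed_le (by fun_prop) (by fun_prop)
  · rw [show {q : ℝ × ℝ | ∀ v ∈ Icc (24 / 289 : ℝ) (144840 / 1143473 : ℝ),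
        2 * v * q.2 + Real.sqrt (1 - 2 * v ^ 2) * (q.1 + (82945 / 165886 : ℝ)) ≤ 1} = ⋂ v ∈ Icc (24 / 289 : ℝ) (144840 / 1143473 : ℝ),
        {q : ℝ × ℝ | 2 * v * q.2 + Real.sqrt (1 - 2 * v ^ 2) * (q.1 + (82945 / 165886 : ℝ)) ≤ 1} by ext; simp]
    exact isClosed_biInter fun v _ => isClosed_le (by fun_prop) (by fun_prop)

theorem ok_comb {S t S' t' a b : ℝ} (h : (S, t) ∈ okS) (h' : (S', t') ∈ okS) (ha : 0 ≤ a)
    (hb : 0 ≤ b) (hab : a + b = 1) : (a * S + b * S', a * t + b * t') ∈ okS := by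
  obtain rfl : b = 1 - a := by linarith
  refine ⟨fun v hv => ?_, fun v hv => ?_⟩
  · have e1 := mul_le_mul_of_nonneg_left (h.1 v hv) ha
    have e2 := mul_le_mul_of_nonneg_left (h'.1 v hv) hb
    simp only at e1 e2 ⊢
    linarith
  · have e1 := mul_le_mul_of_nonneg_left (h.2 v hv) ha
    have e2 := mul_le_mul_of_nonneg_left (h'.2 v hv) hb
    simp only at e1 e2 ⊢
    linarith

theorem ok_mono {S t S' t' : ℝ} (h : (S, t) ∈ okS) (hS : S' ≤ S) (ht : t' ≤ t) :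
    (S', t') ∈ okS := by
  refine ⟨fun v hv => le_trans ?_ (h.1 v hv), fun v hv => le_trans ?_ (h.2 v hv)⟩
  · have := hv.1
    simp only
    gcongr
  · have : 0 ≤ v := le_trans (by norm_num) hv.1
    simp only
    gcongr

theorem ok_top {S t : ℝ} (h : (S, t) ∈ okS) : S ≤ (82945 / 165886 : ℝ) := by
  simpa using h.1 0 ⟨le_rfl, by norm_num⟩

theorem sq_w {v : ℝ} (h0 : 0 ≤ v) (h1 : v ≤ 1 / 2) :
    Real.sqrt (1 - 2 * v ^ 2) ^ 2 = 1 - 2 * v ^ 2 := Real.sq_sqrt (by nlinarith)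

theorem w_le {v : ℝ} (h0 : (24 / 289 : ℝ) ≤ v) : Real.sqrt (1 - 2 * v ^ 2) ≤ 287 / 289 :=
  Real.sqrt_le_iff.2 ⟨by norm_num, by nlinarith⟩

theorem w_ge {v : ℝ} (h0 : 0 ≤ v) (h1 : v ≤ 13 / 100) : 98 / 100 ≤ Real.sqrt (1 - 2 * v ^ 2) :=
  Real.le_sqrt_of_sq_le (by nlinarith)

theorem ok_apex : ((13767849259 / 33524541586 : ℝ), (13767849259 / 33524541586 : ℝ)) ∈ okS := by
  refine ⟨fun v hv => ?_, fun v hv => ?_⟩
  · have := hv.2
    have := sq_nonneg v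
    simp only
    linarith
  · obtain ⟨h0, h1⟩ := hv
    have : Real.sqrt (1 - 2 * v ^ 2) ≤ (1 - 2 * v * (13767849259 / 33524541586 : ℝ)) / ((13767849259 / 33524541586 : ℝ) + (82945 / 165886 : ℝ)) := by
      refine Real.sqrt_le_iff.2 ⟨div_nonneg (by linarith) (by norm_num), ?_⟩
      rw [div_pow, le_div_iff₀ (by norm_num)]
      have e : (1 - 2 * v * (13767849259 / 33524541586 : ℝ)) ^ 2 - (1 - 2 * v ^ 2) * ((13767849259 / 33524541586 : ℝ) + (82945 / 165886 : ℝ)) ^ 2 = ((144840 / 1143473 : ℝ) - v) *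
          (4 * (13767849259 / 33524541586 : ℝ) - (4 * (13767849259 / 33524541586 : ℝ) ^ 2 + 2 * ((13767849259 / 33524541586 : ℝ) + (82945 / 165886 : ℝ)) ^ 2) * ((144840 / 1143473 : ℝ) + v)) := by ring
      have : 0 ≤ ((144840 / 1143473 : ℝ) - v) * (4 * (13767849259 / 33524541586 : ℝ) - (4 * (13767849259 / 33524541586 : ℝ) ^ 2 + 2 * ((13767849259 / 33524541586 : ℝ) + (82945 / 165886 : ℝ)) ^ 2) * ((144840 / 1143473 : ℝ) + v)) :=
        mul_nonneg (by linarith) (by linarith)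
      linarith
    rw [le_div_iff₀ (by norm_num)] at this
    simp only
    linarith

theorem ok_ref {z : ℝ} (hz : (13767849259 / 33524541586 : ℝ) ≤ z) : (2 * (13767849259 / 33524541586 : ℝ) - z, z) ∈ okS := by
  refine ⟨fun v hv => le_trans ?_ (ok_apex.1 v hv), fun v hv => le_trans ?_ (ok_apex.2 v hv)⟩
  · have : 0 ≤ (z - (13767849259 / 33524541586 : ℝ)) * (1 - 2 * (289 / 287 : ℝ) * v) := mul_nonneg (by linarith) (by linarith [hv.2])
    simp only
    linarith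
  · have h := w_ge (v := v) (le_trans (by norm_num) hv.1) (le_trans hv.2 (by norm_num))
    have : 0 ≤ (z - (13767849259 / 33524541586 : ℝ)) * (Real.sqrt (1 - 2 * v ^ 2) - 2 * v) :=
      mul_nonneg (by linarith) (by linarith [hv.2])
    simp only
    linarith

theorem cs {v w y w' : ℝ} (h : w ^ 2 = 1 - 2 * v ^ 2) (h' : w' ^ 2 = 1 - 2 * y ^ 2) :
    2 * v * y + w * w' ≤ 1 := by
  nlinarith [sq_nonneg (v - y), sq_nonneg (w - w')]

theorem ok_par {y : ℝ} (h0 : 0 ≤ y) (h1 : y ≤ (24 / 289 : ℝ)) : ((82945 / 165886 : ℝ) - (289 / 287 : ℝ) * y ^ 2, y) ∈ okS := by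
  refine ⟨fun v _ => ?_, fun v hv => ?_⟩
  · have := sq_nonneg (v - y)
    simp only
    linarith
  · obtain ⟨a1, a2⟩ := hv
    have b1 := w_le a1
    have b2 := cs (sq_w (v := v) (by linarith) (by linarith)) (y := (24 / 289 : ℝ)) (w' := 287 / 289)
      (by norm_num)
    have b0 := Real.sqrt_nonneg (1 - 2 * v ^ 2)
    simp only
    generalize Real.sqrt (1 - 2 * v ^ 2) = w at b0 b1 b2
    have b3 : w * (y + (24 / 289 : ℝ)) ≤ 287 / 289 * (2 * (24 / 289 : ℝ)) := by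
      refine mul_le_mul b1 (by linarith) (by linarith) (by norm_num)
    have : 0 ≤ ((24 / 289 : ℝ) - y) * (2 * v - (289 / 287 : ℝ) * (w * (y + (24 / 289 : ℝ)))) := mul_nonneg (by linarith) (by linarith)
    nlinarith

theorem ok_circ {y w : ℝ} (h0 : (24 / 289 : ℝ) ≤ y) (hw : w ^ 2 = 1 - 2 * y ^ 2) : (w - (82945 / 165886 : ℝ), y) ∈ okS := by
  refine ⟨fun v hv => ?_, fun v hv => ?_⟩
  · obtain ⟨a1, a2⟩ := hv
    have b2 := cs hw (y := (24 / 289 : ℝ)) (w' := 287 / 289) (by norm_num)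
    have : 0 ≤ ((24 / 289 : ℝ) - v) * (2 * y - ((24 / 289 : ℝ) + v)) := mul_nonneg (by linarith) (by linarith)
    simp only
    nlinarith
  · obtain ⟨a1, a2⟩ := hv
    have := cs (sq_w (v := v) (by linarith) (by linarith)) hw
    simp only
    linarith

/-- The new body in coordinates. -/
def KR : Set R3 := {r | ∀ a b : Bool,
  (-(sg a * r.1) - sg b * r.2.1 - sg a * sg b * r.2.2, sg a * r.1) ∈ okS ∧
  (-(sg a * r.1) - sg b * r.2.1 - sg a * sg b * r.2.2, sg b * r.2.1) ∈ okS ∧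
  (-(sg a * r.1) - sg b * r.2.1 - sg a * sg b * r.2.2, sg a * sg b * r.2.2) ∈ okS}

theorem KR_sym : Sym KR := by
  constructor
  · intro x y z h a b
    have := h (!a) (!b)
    simp only [sg_not] at this ⊢
    obtain ⟨h1, h2, h3⟩ := this
    refine ⟨?_, ?_, ?_⟩
    · convert h1 using 2 <;> ring
    · convert h2 using 2 <;> ring
    · convert h3 using 2 <;> ring
  · intro x y z h a b
    have := h (a == b) a
    have e : sg a * sg b * sg a = sg b := by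
      rw [mul_comm (sg a), mul_assoc, sg_sq, mul_one]
    simp only [sg_beq, e] at this ⊢
    obtain ⟨h1, h2, h3⟩ := this
    refine ⟨?_, ?_, ?_⟩
    · convert h2 using 2; ring
    · convert h3 using 2; ring
    · convert h1 using 2; ring

theorem KR_closed : IsClosed KR := by
  rw [show KR = ⋂ a : Bool, ⋂ b : Bool, {r : R3 |
    (-(sg a * r.1) - sg b * r.2.1 - sg a * sg b * r.2.2, sg a * r.1) ∈ okS ∧
    (-(sg a * r.1) - sg b * r.2.1 - sg a * sg b * r.2.2, sg b * r.2.1) ∈ okS ∧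
    (-(sg a * r.1) - sg b * r.2.1 - sg a * sg b * r.2.2, sg a * sg b * r.2.2) ∈ okS} by
      ext; simp [KR]]
  refine isClosed_iInter fun a => isClosed_iInter fun b => IsClosed.and ?_ (IsClosed.and ?_ ?_) <;>
    exact okS_closed.preimage (by fun_prop)

theorem KR_convex : Convex ℝ KR := by
  intro p hp q hq s t hs ht hst a b
  obtain ⟨h1, h2, h3⟩ := hp a b
  obtain ⟨k1, k2, k3⟩ := hq a b
  simp only [Prod.fst_add, Prod.snd_add, Prod.smul_fst, Prod.smul_snd, smul_eq_mul]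
  refine ⟨?_, ?_, ?_⟩
  · convert ok_comb h1 k1 hs ht hst using 2 <;> ring
  · convert ok_comb h2 k2 hs ht hst using 2 <;> ring
  · convert ok_comb h3 k3 hs ht hst using 2 <;> ring

theorem KR_face {x y z : ℝ} (h : (x, y, z) ∈ KR) :
    -x - y - z ≤ (82945 / 165886 : ℝ) ∧ x + y - z ≤ (82945 / 165886 : ℝ) ∧ x - y + z ≤ (82945 / 165886 : ℝ) ∧ -x + y + z ≤ (82945 / 165886 : ℝ) := by
  have h1 := ok_top (h true true).1
  have h2 := ok_top (h false false).1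
  have h3 := ok_top (h false true).1
  have h4 := ok_top (h true false).1
  simp only [sg, if_true, Bool.false_eq_true, if_false] at h1 h2 h3 h4
  refine ⟨?_, ?_, ?_, ?_⟩ <;> linarith

theorem KR_edge {x y z : ℝ} (h : (x, y, z) ∈ KR) : (-x + y + z, x) ∈ okS := by
  have h4 := (h true false).1
  simp only [sg, if_true, Bool.false_eq_true, if_false] at h4
  convert h4 using 2 <;> ring

theorem good_mem {y z : ℝ} (h0 : 0 ≤ y) (h1 : y ≤ (13767849259 / 33524541586 : ℝ)) (h2 : (13767849259 / 33524541586 : ℝ) ≤ z) (h : (z, y) ∈ okS) :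
    (y, y, z) ∈ KR := by
  have h' := ok_ref h2
  intro a b
  cases a <;> cases b <;> simp only [sg, if_true, Bool.false_eq_true, if_false] <;>
    refine ⟨?_, ?_, ?_⟩ <;>
    first
      | exact ok_mono h (by linarith) (by linarith)
      | exact ok_mono h' (by linarith) (by linarith)

theorem small_mem {x y z : ℝ} (hx : |x| ≤ 1 / 10) (hy : |y| ≤ 1 / 10) (hz : |z| ≤ 1 / 10) :
    (x, y, z) ∈ KR := by
  obtain ⟨x1, x2⟩ := abs_le.1 hx
  obtain ⟨u1, u2⟩ := abs_le.1 hy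
  obtain ⟨z1, z2⟩ := abs_le.1 hz
  intro a b
  cases a <;> cases b <;> simp only [sg, if_true, Bool.false_eq_true, if_false] <;>
    refine ⟨?_, ?_, ?_⟩ <;> exact ok_mono ok_apex (by linarith) (by linarith)

/-- Lower bound for the support function of the profile. -/
def sup (μ g : ℝ) : Prop :=
  (82945 / 165886 : ℝ) + 287 / 1156 * μ ^ 2 ≤ g ∨ (48 / 287 ≤ μ ∧ Real.sqrt (1 + μ ^ 2 / 2) - (82945 / 165886 : ℝ) ≤ g)

theorem exists_supp {μ : ℝ} (h0 : 0 ≤ μ) (h2 : μ ≤ 2) :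
    ∃ y z : ℝ, (y, y, z) ∈ KR ∧ sup μ (μ * y + z) := by
  rcases le_total μ (48 / 287) with h | h
  · have a1 : μ / (2 * (289 / 287 : ℝ)) ≤ (24 / 289 : ℝ) := by rw [div_le_iff₀ (by norm_num)]; linarith
    have a0 : 0 ≤ μ / (2 * (289 / 287 : ℝ)) := by positivity
    refine ⟨μ / (2 * (289 / 287 : ℝ)), (82945 / 165886 : ℝ) - (289 / 287 : ℝ) * (μ / (2 * (289 / 287 : ℝ))) ^ 2, good_mem a0 (by linarith) (by nlinarith)
      (ok_par a0 a1), Or.inl (le_of_eq (by ring))⟩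
  rcases le_total μ (289680 / 1124977) with h' | h'
  · set ρ := Real.sqrt (1 + μ ^ 2 / 2) with hρ
    have e : ρ ^ 2 = 1 + μ ^ 2 / 2 := Real.sq_sqrt (by positivity)
    have r1 : 1 ≤ ρ := Real.le_sqrt_of_sq_le (by nlinarith)
    have r2 : ρ ≤ 102 / 100 := Real.sqrt_le_iff.2 ⟨by norm_num, by nlinarith⟩
    have r0 : 0 < ρ := by linarith
    have r3 : ρ ≤ 289 / 48 * μ := Real.sqrt_le_iff.2 ⟨by positivity, by nlinarith⟩
    have a1 : (24 / 289 : ℝ) ≤ μ / (2 * ρ) := by rw [le_div_iff₀ (by positivity)]; linarith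
    have a2 : μ / (2 * ρ) ≤ (13767849259 / 33524541586 : ℝ) := by rw [div_le_iff₀ (by positivity)]; linarith
    have a3 : (13767849259 / 33524541586 : ℝ) + (82945 / 165886 : ℝ) ≤ 1 / ρ := by rw [le_div_iff₀ r0]; linarith
    refine ⟨μ / (2 * ρ), 1 / ρ - (82945 / 165886 : ℝ), good_mem (by positivity) a2 (by linarith)
      (ok_circ a1 (by field_simp; linarith)), Or.inr ⟨h, le_of_eq ?_⟩⟩
    rw [← hρ]
    field_simp
    linarith
  · refine ⟨(13767849259 / 33524541586 : ℝ), (13767849259 / 33524541586 : ℝ), good_mem (by norm_num) le_rfl le_rfl ok_apex, Or.inr ⟨h, ?_⟩⟩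
    have : Real.sqrt (1 + μ ^ 2 / 2) ≤ μ * (13767849259 / 33524541586 : ℝ) + (13767849259 / 33524541586 : ℝ) + (82945 / 165886 : ℝ) := by
      refine Real.sqrt_le_iff.2 ⟨by positivity, ?_⟩
      have e : (μ * (13767849259 / 33524541586 : ℝ) + (13767849259 / 33524541586 : ℝ) + (82945 / 165886 : ℝ)) ^ 2 - (1 + μ ^ 2 / 2) = (μ - 289680 / 1124977) *
          (2 * (13767849259 / 33524541586 : ℝ) * ((13767849259 / 33524541586 : ℝ) + (82945 / 165886 : ℝ)) - (1 / 2 - (13767849259 / 33524541586 : ℝ) ^ 2) * (μ + 289680 / 1124977)) := by ring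
      have : 0 ≤ (μ - 289680 / 1124977) *
          (2 * (13767849259 / 33524541586 : ℝ) * ((13767849259 / 33524541586 : ℝ) + (82945 / 165886 : ℝ)) - (1 / 2 - (13767849259 / 33524541586 : ℝ) ^ 2) * (μ + 289680 / 1124977)) :=
        mul_nonneg (by linarith) (by linarith)
      linarith
    linarith

theorem sup_mixed {μ ν g g' : ℝ} (h : 48 / 287 ≤ μ) (hg : Real.sqrt (1 + μ ^ 2 / 2) - (82945 / 165886 : ℝ) ≤ g)
    (hg' : (82945 / 165886 : ℝ) + 287 / 1156 * ν ^ 2 ≤ g') : Real.sqrt (1 + μ ^ 2 / 2 + ν ^ 2 / 2) ≤ g + g' := by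
  have e : Real.sqrt (1 + μ ^ 2 / 2) ^ 2 = 1 + μ ^ 2 / 2 := Real.sq_sqrt (by positivity)
  have r1 : (289 / 287 : ℝ) ≤ Real.sqrt (1 + μ ^ 2 / 2) := Real.le_sqrt_of_sq_le (by nlinarith)
  generalize Real.sqrt (1 + μ ^ 2 / 2) = F at e r1 hg
  refine le_trans (Real.sqrt_le_iff.2 ⟨?_, ?_⟩) (show F + 287 / 1156 * ν ^ 2 ≤ g + g' by linarith)
  · have : 0 < F := by linarith
    positivity
  · have := mul_le_mul_of_nonneg_right r1 (sq_nonneg ν)
    nlinarith [sq_nonneg (ν ^ 2)]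

theorem sup_pair {μ ν g g' : ℝ} (h : sup μ g) (h' : sup ν g') :
    Real.sqrt (1 + μ ^ 2 / 2 + ν ^ 2 / 2) ≤ g + g' := by
  rcases h with h | ⟨h, hg⟩ <;> rcases h' with h' | ⟨h', hg'⟩
  · refine le_trans (Real.sqrt_le_iff.2 ⟨by positivity, ?_⟩)
      (show 2 * (82945 / 165886 : ℝ) + 287 / 1156 * (μ ^ 2 + ν ^ 2) ≤ g + g' by linarith)
    nlinarith [sq_nonneg (μ ^ 2 + ν ^ 2 - (48 / 287) ^ 2)]
  · rw [add_right_comm, add_comm g]
    exact sup_mixed h' hg' h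
  · exact sup_mixed h hg h'
  · have e : Real.sqrt (1 + μ ^ 2 / 2) ^ 2 = 1 + μ ^ 2 / 2 := Real.sq_sqrt (by positivity)
    have r1 : (289 / 287 : ℝ) ≤ Real.sqrt (1 + μ ^ 2 / 2) := Real.le_sqrt_of_sq_le (by nlinarith)
    have e' : Real.sqrt (1 + ν ^ 2 / 2) ^ 2 = 1 + ν ^ 2 / 2 := Real.sq_sqrt (by positivity)
    have r1' : (289 / 287 : ℝ) ≤ Real.sqrt (1 + ν ^ 2 / 2) := Real.le_sqrt_of_sq_le (by nlinarith)
    generalize Real.sqrt (1 + μ ^ 2 / 2) = F at e r1 hg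
    generalize Real.sqrt (1 + ν ^ 2 / 2) = F' at e' r1' hg'
    refine le_trans (Real.sqrt_le_iff.2 ⟨by linarith, ?_⟩)
      (show F + F' - 2 * (82945 / 165886 : ℝ) ≤ g + g' by linarith)
    have := mul_le_mul (show (289 / 287 : ℝ) - 2 * (82945 / 165886 : ℝ) ≤ F - 2 * (82945 / 165886 : ℝ) by linarith)
      (show (289 / 287 : ℝ) - 2 * (82945 / 165886 : ℝ) ≤ F' - 2 * (82945 / 165886 : ℝ) by linarith) (by norm_num) (by linarith)
    nlinarith

/-- The width of the body in the direction `(A, B, C)` is at least the length of that vector. -/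
def Wd (A B C : ℝ) : Prop := ∃ p ∈ KR, ∃ q ∈ KR, Real.sqrt (A ^ 2 + B ^ 2 + C ^ 2) ≤
  (p.1 * A + p.2.1 * B + p.2.2 * C) - (q.1 * A + q.2.1 * B + q.2.2 * C)

theorem Wd.neg {A B C : ℝ} (h : Wd (-A) (-B) (-C)) : Wd A B C := by
  obtain ⟨p, hp, q, hq, h⟩ := h
  refine ⟨q, hq, p, hp, ?_⟩
  simp only [neg_sq] at h
  linarith

theorem Wd.cyc {A B C : ℝ} (h : Wd A B C) : Wd B C A := by
  obtain ⟨p, hp, q, hq, h⟩ := h
  refine ⟨_, KR_sym.cyc _ _ _ hp, _, KR_sym.cyc _ _ _ hq, ?_⟩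
  rw [show B ^ 2 + C ^ 2 + A ^ 2 = A ^ 2 + B ^ 2 + C ^ 2 by ring]
  simp only
  linarith

theorem wd_core {A B C : ℝ} (hC : 0 < C) (hA : |A| ≤ C) (hB : |B| ≤ C) : Wd A B C := by
  obtain ⟨a1, a2⟩ := abs_le.1 hA
  obtain ⟨b1, b2⟩ := abs_le.1 hB
  obtain ⟨y, z, hm, hs⟩ := exists_supp (μ := |A + B| / C) (by positivity)
    (by rw [div_le_iff₀ hC, abs_le]; constructor <;> linarith)
  obtain ⟨y', z', hm', hs'⟩ := exists_supp (μ := |A - B| / C) (by positivity)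
    (by rw [div_le_iff₀ hC, abs_le]; constructor <;> linarith)
  have h := mul_le_mul_of_nonneg_left (sup_pair hs hs') hC.le
  have e1 : C * Real.sqrt (1 + (|A + B| / C) ^ 2 / 2 + (|A - B| / C) ^ 2 / 2) =
      Real.sqrt (A ^ 2 + B ^ 2 + C ^ 2) := by
    rw [← Real.sqrt_sq hC.le, ← Real.sqrt_mul (sq_nonneg C), Real.sqrt_sq hC.le, div_pow, div_pow,
      sq_abs, sq_abs]
    congr 1
    field_simp
    ring
  have e2 : C * (|A + B| / C * y + z + (|A - B| / C * y' + z')) =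
      |A + B| * y + C * z + |A - B| * y' + C * z' := by field_simp; ring
  rw [e1, e2] at h
  rcases abs_cases (A + B) with ⟨e, -⟩ | ⟨e, -⟩ <;> rcases abs_cases (A - B) with ⟨e', -⟩ | ⟨e', -⟩ <;>
    rw [e, e'] at h
  · exact ⟨_, hm, _, KR_sym.flip3 _ _ _ hm', by simp only; linarith⟩
  · exact ⟨_, hm, _, KR_sym.flip2 _ _ _ hm', by simp only; linarith⟩
  · exact ⟨_, KR_sym.flip _ _ _ hm, _, KR_sym.flip3 _ _ _ hm', by simp only; linarith⟩
  · exact ⟨_, KR_sym.flip _ _ _ hm, _, KR_sym.flip2 _ _ _ hm', by simp only; linarith⟩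

theorem wd_abs {A B C : ℝ} (hA : |A| ≤ |C|) (hB : |B| ≤ |C|) : Wd A B C := by
  rcases lt_trichotomy C 0 with h | h | h
  · rw [abs_of_neg h] at hA hB
    exact (wd_core (by linarith) (by rwa [abs_neg]) (by rwa [abs_neg])).neg
  · subst h
    simp only [abs_zero, abs_nonpos_iff] at hA hB
    subst hA hB
    have := small_mem (x := 0) (y := 0) (z := 0) (by simp) (by simp) (by simp)
    exact ⟨_, this, _, this, by simp⟩
  · rw [abs_of_pos h] at hA hB
    exact wd_core h hA hB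

theorem wd_all (A B C : ℝ) : Wd A B C := by
  rcases le_total |A| |B| with h1 | h1 <;> rcases le_total |B| |C| with h2 | h2 <;>
    rcases le_total |A| |C| with h3 | h3
  all_goals first
    | exact wd_abs (by linarith) (by linarith)
    | exact (wd_abs (A := C) (B := A) (C := B) (by linarith) (by linarith)).cyc
    | exact (wd_abs (A := B) (B := C) (C := A) (by linarith) (by linarith)).cyc.cyc

end Pool.Agent.MP_1e9c11_gt.H81
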