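import Mathlib

/-! Convex bodies in space, minimal width, and Heil's body. -/

namespace Pool.Agent.MP_1e9c11_gt.H81

/-- Euclidean three-space. -/
abbrev E3 : Type := EuclideanSpace ℝ (Fin 3)

/-- A convex body: compact, convex, with nonempty interior. -/
def IsBody (K : Set E3) : Prop := IsCompact K ∧ Convex ℝ K ∧ (interior K).Nonempty

/-- The width `max ⟨x, u⟩ - min ⟨x, u⟩` of `K` in the direction `u`. -/
noncomputable def dirWidth (K : Set E3) (u : E3) : ℝ :=
  sSup ((fun x => inner ℝ x u) '' K) - sInf ((fun x => inner ℝ x u) '' K)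

/-- `w` is the minimum over unit vectors `u` of the width of `K` in the direction `u`. -/
def HasWidth (K : Set E3) (w : ℝ) : Prop :=
  IsLeast {t : ℝ | ∃ u : E3, ‖u‖ = 1 ∧ t = dirWidth K u} w

/-- The vertices of a regular tetrahedron of edge `√2`. -/
noncomputable def vert : Fin 4 → E3 :=
  ![!₂[1 / 2, 1 / 2, 1 / 2], !₂[1 / 2, -1 / 2, -1 / 2], !₂[-1 / 2, 1 / 2, -1 / 2],
    !₂[-1 / 2, -1 / 2, 1 / 2]]

/-- The centre of the face opposite to the vertex `i`. -/
noncomputable def faceCentre (i : Fin 4) : E3 := (1 / 3 : ℝ) • (∑ k, vert k - vert i)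

/-- The point at distance `1` from the face opposite to the vertex `i`, on the segment from the
centre of that face to the vertex. -/
noncomputable def heilPoint (i : Fin 4) : E3 :=
  faceCentre i + ‖vert i - faceCentre i‖⁻¹ • (vert i - faceCentre i)

/-- The midpoint of the edge `i j`. -/
noncomputable def edgeMid (i j : Fin 4) : E3 := (1 / 2 : ℝ) • (vert i + vert j)

/-- The midpoint of the edge opposite to the edge `i j`. -/
noncomputable def oppMid (i j : Fin 4) : E3 := (1 / 2 : ℝ) • (∑ k, vert k - vert i - vert j)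

/-- The point at angle `θ` on the circle of radius `1` about the midpoint of the opposite edge,
in the plane of that midpoint and the edge `i j`; the angle `0` gives the midpoint of `i j`. -/
noncomputable def arcPoint (i j : Fin 4) (θ : ℝ) : E3 :=
  oppMid i j + Real.cos θ • (edgeMid i j - oppMid i j) +
    Real.sin θ • ((Real.sqrt 2)⁻¹ • (vert i - vert j))

/-- Heil's body, with arcs of half-angle `θ₀`. -/
def heil (θ₀ : ℝ) : Set E3 :=
  convexHull ℝ (Set.range heilPoint ∪
    {p | ∃ i j : Fin 4, i ≠ j ∧ ∃ θ : ℝ, |θ| ≤ θ₀ ∧ p = arcPoint i j θ})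

end Pool.Agent.MP_1e9c11_gt.H81
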