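import Pool.Agent.MP_1e9c11_gt.H81.Vol
import Pool.Agent.MP_1e9c11_gt.H81.Defs

/-! A lower bound for the volume of Heil's body. -/

open MeasureTheory Set

namespace Pool.Agent.MP_1e9c11_gt.H81

theorem sum_vert : ∑ k, vert k = 0 := by
  ext k
  fin_cases k <;> simp [vert, Fin.sum_univ_four] <;> norm_num

theorem norm_vert (i : Fin 4) : ‖vert i‖ = Real.sqrt 3 / 2 := by
  rw [EuclideanSpace.norm_eq, show Real.sqrt 3 / 2 = Real.sqrt (3 / 4) by
    rw [Real.sqrt_div (by norm_num), show (4 : ℝ) = 2 ^ 2 by norm_num, Real.sqrt_sq (by norm_num)]]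
  congr 1
  fin_cases i <;> simp [vert, Fin.sum_univ_three] <;> norm_num

/-- The coordinate of Heil's four points. -/
noncomputable def aH : ℝ := (Real.sqrt 3 - 1 / 2) / 3

theorem heilPoint_eq (i : Fin 4) : heilPoint i = (2 * aH) • vert i := by
  have h3 : Real.sqrt 3 ≠ 0 := by positivity
  have h33 : Real.sqrt 3 * Real.sqrt 3 = 3 := Real.mul_self_sqrt (by norm_num)
  have e : vert i - faceCentre i = (4 / 3 : ℝ) • vert i := by
    unfold faceCentre; rw [sum_vert]; module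
  unfold heilPoint
  rw [e, norm_smul, norm_vert, faceCentre, sum_vert, smul_smul]
  have : (‖(4 / 3 : ℝ)‖ * (Real.sqrt 3 / 2))⁻¹ * (4 / 3) = 2 * aH + 1 / 3 := by
    rw [Real.norm_of_nonneg (by norm_num), aH]
    field_simp
    linarith
  rw [this]
  module

theorem arcPoint_eq (i j : Fin 4) (θ : ℝ) : arcPoint i j θ =
    (Real.cos θ - 1 / 2) • (vert i + vert j) + (Real.sin θ / Real.sqrt 2) • (vert i - vert j) := by
  unfold arcPoint oppMid edgeMid
  rw [sum_vert, div_eq_mul_inv (Real.sin θ)]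
  module

/-- The point with the given coordinates. -/
noncomputable def mk3 (r : R3) : E3 := !₂[r.1, r.2.1, r.2.2]

theorem mk3_co (p : E3) : mk3 (co p) = p := by
  ext k
  fin_cases k <;> rfl

theorem mk3_lin : IsLinearMap ℝ mk3 :=
  ⟨fun x y => by ext k; fin_cases k <;> simp [mk3], fun c x => by ext k; fin_cases k <;> simp [mk3]⟩

/-- The profile curve of Heil's body. -/
def prof (y z : ℝ) : Prop :=
  (y = aH ∧ z = aH) ∨ ∃ θ : ℝ, |θ| ≤ 9 / 50 ∧ y = Real.sin θ / Real.sqrt 2 ∧ z = Real.cos θ - 1 / 2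

/-- The orbit of the profile curve. -/
def gens : Set R3 := {r | ∃ y z : ℝ, prof y z ∧ ∃ a b : Bool,
  r = (sg a * y, sg b * y, sg a * sg b * z) ∨ r = (sg a * y, sg b * z, sg a * sg b * y) ∨
    r = (sg a * z, sg b * y, sg a * sg b * y)}

theorem gens_sub {θ₀ : ℝ} (h : 9 / 50 ≤ θ₀) : gens ⊆ mk3 ⁻¹' heil θ₀ := by
  rintro r ⟨y, z, hp, a, b, hr⟩
  refine subset_convexHull ℝ _ ?_
  rcases hp with ⟨rfl, rfl⟩ | ⟨θ, hθ, rfl, rfl⟩
  · left
    have hr' : r = (sg a * aH, sg b * aH, sg a * sg b * aH) := by tauto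
    subst hr'
    cases a <;> cases b
    · exact ⟨3, by rw [heilPoint_eq]; ext k; fin_cases k <;> simp [mk3, vert, sg] <;> ring⟩
    · exact ⟨2, by rw [heilPoint_eq]; ext k; fin_cases k <;> simp [mk3, vert, sg] <;> ring⟩
    · exact ⟨1, by rw [heilPoint_eq]; ext k; fin_cases k <;> simp [mk3, vert, sg] <;> ring⟩
    · exact ⟨0, by rw [heilPoint_eq]; ext k; fin_cases k <;> simp [mk3, vert, sg] <;> ring⟩
  · right
    have key : ∀ (i j : Fin 4) (r : R3), i ≠ j → mk3 r = arcPoint i j θ →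
        mk3 r ∈ {p | ∃ i j : Fin 4, i ≠ j ∧ ∃ θ : ℝ, |θ| ≤ θ₀ ∧ p = arcPoint i j θ} :=
      fun i j r hij e => ⟨i, j, hij, θ, hθ.trans h, e⟩
    rcases hr with rfl | rfl | rfl <;> cases a <;> cases b
    · refine key 3 0 _ (by decide) ?_
      rw [arcPoint_eq]; ext k; fin_cases k <;> simp [mk3, vert, sg] <;> ring
    · refine key 2 1 _ (by decide) ?_
      rw [arcPoint_eq]; ext k; fin_cases k <;> simp [mk3, vert, sg] <;> ring
    · refine key 1 2 _ (by decide) ?_
      rw [arcPoint_eq]; ext k; fin_cases k <;> simp [mk3, vert, sg] <;> ring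
    · refine key 0 3 _ (by decide) ?_
      rw [arcPoint_eq]; ext k; fin_cases k <;> simp [mk3, vert, sg] <;> ring
    · refine key 3 1 _ (by decide) ?_
      rw [arcPoint_eq]; ext k; fin_cases k <;> simp [mk3, vert, sg] <;> ring
    · refine key 2 0 _ (by decide) ?_
      rw [arcPoint_eq]; ext k; fin_cases k <;> simp [mk3, vert, sg] <;> ring
    · refine key 1 3 _ (by decide) ?_
      rw [arcPoint_eq]; ext k; fin_cases k <;> simp [mk3, vert, sg] <;> ring
    · refine key 0 2 _ (by decide) ?_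
      rw [arcPoint_eq]; ext k; fin_cases k <;> simp [mk3, vert, sg] <;> ring
    · refine key 3 2 _ (by decide) ?_
      rw [arcPoint_eq]; ext k; fin_cases k <;> simp [mk3, vert, sg] <;> ring
    · refine key 2 3 _ (by decide) ?_
      rw [arcPoint_eq]; ext k; fin_cases k <;> simp [mk3, vert, sg] <;> ring
    · refine key 1 0 _ (by decide) ?_
      rw [arcPoint_eq]; ext k; fin_cases k <;> simp [mk3, vert, sg] <;> ring
    · refine key 0 1 _ (by decide) ?_
      rw [arcPoint_eq]; ext k; fin_cases k <;> simp [mk3, vert, sg] <;> ring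

/-- The hull in coordinates. -/
def hullC : Set R3 := convexHull ℝ gens

theorem hullC_convex : Convex ℝ hullC := convex_convexHull ℝ _

theorem sg_not (a : Bool) : sg (!a) = -sg a := by cases a <;> simp [sg]

theorem sg_beq (a b : Bool) : sg (a == b) = sg a * sg b := by cases a <;> cases b <;> simp [sg]

theorem sg_sq (a : Bool) : sg a * sg a = 1 := by cases a <;> simp [sg]

theorem hullC_sym : Sym hullC := by
  constructor
  · intro x y z h
    have lin : IsLinearMap ℝ fun r : R3 => ((-r.1, -r.2.1, r.2.2) : R3) :=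
      ⟨fun x y => by ext <;> simp <;> ring, fun c x => by ext <;> simp⟩
    refine convexHull_min (t := (fun r : R3 => ((-r.1, -r.2.1, r.2.2) : R3)) ⁻¹' hullC) ?_
      (hullC_convex.is_linear_preimage lin) h
    rintro r ⟨y, z, hp, a, b, hr⟩
    refine subset_convexHull ℝ _ ⟨y, z, hp, !a, !b, ?_⟩
    rcases hr with rfl | rfl | rfl <;> simp [sg_not]
  · intro x y z h
    have lin : IsLinearMap ℝ cyc :=
      ⟨fun x y => by ext <;> simp [cyc], fun c x => by ext <;> simp [cyc]⟩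
    refine convexHull_min (t := cyc ⁻¹' hullC) ?_ (hullC_convex.is_linear_preimage lin) h
    rintro r ⟨y, z, hp, a, b, hr⟩
    refine subset_convexHull ℝ _ ⟨y, z, hp, b, a == b, ?_⟩
    have e : sg b * (sg a * sg b) = sg a := by
      rw [mul_comm (sg a), ← mul_assoc, sg_sq, one_mul]
    rcases hr with rfl | rfl | rfl <;> simp [cyc, sg_beq, e]

theorem tet {C : Set R3} (hC : Convex ℝ C) {p q r s : R3} (hp : p ∈ C) (hq : q ∈ C) (hr : r ∈ C)
    (hs : s ∈ C) {a b c d : ℝ} (ha : 0 ≤ a) (hb : 0 ≤ b) (hc : 0 ≤ c) (hd : 0 ≤ d)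
    (h : a + b + c + d = 1) : a • p + b • q + c • r + d • s ∈ C := by
  have := hC.sum_mem (t := Finset.univ) (w := ![a, b, c, d]) (z := ![p, q, r, s])
    (fun i _ => by fin_cases i <;> simpa) (by simpa [Fin.sum_univ_four] using h)
    (fun i _ => by fin_cases i <;> simpa)
  simpa [Fin.sum_univ_four] using this

theorem prof_mem {y z : ℝ} (h : prof y z) : (y, y, z) ∈ hullC :=
  subset_convexHull ℝ _ ⟨y, z, h, true, true, Or.inl (by simp [sg])⟩

theorem top_mem : ((0, 0, 1 / 2) : R3) ∈ hullC :=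
  prof_mem (Or.inr ⟨0, by norm_num, by simp, by norm_num⟩)

theorem bot_mem : ((0, 0, -(1 / 2)) : R3) ∈ hullC := by
  simpa using hullC_sym.flip2 _ _ _ top_mem

theorem zero_mem : ((0, 0, 0) : R3) ∈ hullC := by
  have := hullC_convex top_mem bot_mem (a := 1 / 2) (b := 1 / 2) (by norm_num) (by norm_num)
    (by norm_num)
  convert this using 1
  ext <;> simp

theorem aH_ge : (4106836 / 10000000 : ℝ) ≤ aH := by
  have : (17320508 / 10000000 : ℝ) ≤ Real.sqrt 3 := Real.le_sqrt_of_sq_le (by norm_num)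
  unfold aH
  linarith

theorem diag_mem {x : ℝ} (h0 : 0 ≤ x) (h1 : x ≤ 4106836 / 10000000) : (x, x, x) ∈ hullC := by
  have ha := aH_ge
  have hpos : 0 < aH := by linarith
  have := hullC_convex.add_smul_sub_mem zero_mem (prof_mem (Or.inl ⟨rfl, rfl⟩)) (t := x / aH)
    ⟨by positivity, by rw [div_le_one hpos]; linarith⟩
  convert this using 1
  ext <;> simp <;> field_simp

theorem tri_mem {x y z m : ℝ} (h1 : (x, x, x) ∈ hullC) (h2 : (x, x, m) ∈ hullC) (hm : x < m)
    (hy : x ≤ y) (hz : x ≤ z) (hs : y + z ≤ x + m) : (x, y, z) ∈ hullC := by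
  have hd : 0 < m - x := by linarith
  have := tet hullC_convex h1 (hullC_sym.cyc _ _ _ h2) h2 h1 (a := (x + m - y - z) / (m - x))
    (b := (y - x) / (m - x)) (c := (z - x) / (m - x)) (d := 0) (div_nonneg (by linarith) hd.le)
    (div_nonneg (by linarith) hd.le) (div_nonneg (by linarith) hd.le) le_rfl
    (by field_simp; ring)
  convert this using 1
  ext <;> simp <;> field_simp <;> ring

/-- A polynomial lower bound for the arc. -/
noncomputable def Z1 (x : ℝ) : ℝ := 1 / 2 - x ^ 2 - x ^ 4 / 2 - x ^ 6 / 2 - x ^ 8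

theorem Z1_gt {x : ℝ} (h0 : 0 ≤ x) (h1 : x ≤ 253 / 2000) : x < Z1 x := by
  unfold Z1
  have h2 : x ^ 2 ≤ 1 / 50 := by nlinarith
  have h4 : x ^ 4 ≤ 1 / 50 := by nlinarith [sq_nonneg (x ^ 2)]
  have h6 : x ^ 6 ≤ 1 / 50 := by nlinarith [sq_nonneg x, sq_nonneg (x ^ 2), sq_nonneg (x ^ 3)]
  have h8 : x ^ 8 ≤ 1 / 50 := by nlinarith [sq_nonneg (x ^ 2), sq_nonneg (x ^ 4)]
  linarith

theorem arc_mem {x : ℝ} (h0 : 0 ≤ x) (h1 : x ≤ 253 / 2000) : (x, x, Z1 x) ∈ hullC := by
  have s2 : Real.sqrt 2 ≤ 14143 / 10000 := Real.sqrt_le_iff.2 ⟨by norm_num, by norm_num⟩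
  have s0 : 0 < Real.sqrt 2 := by positivity
  have hs : Real.sqrt 2 * x ≤ 17891 / 100000 := by nlinarith
  have hs0 : 0 ≤ Real.sqrt 2 * x := by positivity
  have hpi := Real.pi_gt_three
  have hθ : |Real.arcsin (Real.sqrt 2 * x)| ≤ 9 / 50 := by
    rw [abs_of_nonneg (Real.arcsin_nonneg.2 hs0)]
    rw [Real.arcsin_le_iff_le_sin ⟨by linarith, by linarith⟩ ⟨by linarith, by linarith⟩]
    have := Real.sin_ge_sub_cube (x := 9 / 50) (by norm_num)
    linarith
  have hm := prof_mem (Or.inr ⟨_, hθ, rfl, rfl⟩)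
  rw [Real.sin_arcsin (by linarith) (by linarith), Real.cos_arcsin, mul_div_cancel_left₀ _ s0.ne',
    mul_pow, Real.sq_sqrt (by norm_num)] at hm
  have hW : Z1 x + 1 / 2 ≤ Real.sqrt (1 - 2 * x ^ 2) := by
    refine Real.le_sqrt_of_sq_le ?_
    unfold Z1
    have h2 : x ^ 2 ≤ 1 / 50 := by nlinarith
    have e : (1 / 2 - x ^ 2 - x ^ 4 / 2 - x ^ 6 / 2 - x ^ 8 + 1 / 2) ^ 2 = 1 - 2 * x ^ 2 -
        (x ^ 2) ^ 4 * (3 / 4 - 5 / 2 * x ^ 2 - 5 / 4 * (x ^ 2) ^ 2 - (x ^ 2) ^ 3 - (x ^ 2) ^ 4) := by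
      ring
    rw [e]
    have h0' : 0 ≤ x ^ 2 := sq_nonneg x
    generalize x ^ 2 = u at h2 h0'
    have a2 : u ^ 2 ≤ 1 / 50 := by nlinarith
    have a3 : u ^ 3 ≤ 1 / 50 := by nlinarith
    have a4 : u ^ 4 ≤ 1 / 50 := by nlinarith
    have : 0 ≤ u ^ 4 * (3 / 4 - 5 / 2 * u - 5 / 4 * u ^ 2 - u ^ 3 - u ^ 4) :=
      mul_nonneg (by positivity) (by linarith)
    linarith
  have hz := Z1_gt h0 h1
  exact tri_mem (diag_mem h0 (by linarith)) hm (by linarith) le_rfl hz.le (by linarith)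

/-- The chord from the end of the arc to the vertex. -/
noncomputable def Z2 (x : ℝ) : ℝ :=
  x + (Z1 (253 / 2000) - 253 / 2000) * ((4106836 / 10000000 - x) / (4106836 / 10000000 - 253 / 2000))

theorem Z2_gt {x : ℝ} (h1 : x < 4106836 / 10000000) : x < Z2 x := by
  have := Z1_gt (x := 253 / 2000) (by norm_num) le_rfl
  have h : 0 < (Z1 (253 / 2000) - 253 / 2000) *
      ((4106836 / 10000000 - x) / (4106836 / 10000000 - 253 / 2000)) :=
    mul_pos (by linarith) (div_pos (by linarith) (by norm_num))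
  unfold Z2
  linarith

theorem chord_mem {x : ℝ} (h0 : 253 / 2000 ≤ x) (h1 : x ≤ 4106836 / 10000000) :
    (x, x, Z2 x) ∈ hullC := by
  have := hullC_convex.add_smul_sub_mem (diag_mem (x := 4106836 / 10000000) (by norm_num) le_rfl)
    (arc_mem (x := 253 / 2000) (by norm_num) le_rfl)
    (t := (4106836 / 10000000 - x) / (4106836 / 10000000 - 253 / 2000))
    ⟨div_nonneg (by linarith) (by norm_num), by rw [div_le_one (by norm_num)]; linarith⟩
  convert this using 1
  ext <;> simp only [Z2, Prod.fst_add, Prod.snd_add, Prod.smul_fst, Prod.smul_snd, Prod.fst_sub,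
    Prod.snd_sub, smul_eq_mul] <;> ring

theorem int_Z1 : ∫ x in (0 : ℝ)..253 / 2000, (Z1 x - id x) ^ 2 / 2 ≥ 118779394 / 10000000000 := by
  have := int_poly 17 (fun i => ([1 / 8, -1 / 2, 0, 1, 1 / 4, 1 / 2, 1 / 4, 1 / 2, 1 / 8, 1, 5 / 4, 0,
    5 / 8, 0, 1 / 2, 0, 1 / 2] : List ℝ).getD i 0) 0 (253 / 2000)
  rw [show (fun x : ℝ => (Z1 x - id x) ^ 2 / 2) = fun x => ∑ i ∈ Finset.range 17,
    ([1 / 8, -1 / 2, 0, 1, 1 / 4, 1 / 2, 1 / 4, 1 / 2, 1 / 8, 1, 5 / 4, 0,
    5 / 8, 0, 1 / 2, 0, 1 / 2] : List ℝ).getD i 0 * x ^ i by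
      funext x; simp [Finset.sum_range_succ, Z1]; ring, this]
  simp [Finset.sum_range_succ]
  norm_num

theorem int_sq (k a p q : ℝ) :
    ∫ x in p..q, (k * (a - x)) ^ 2 / 2 = k ^ 2 * ((a - p) ^ 3 - (a - q) ^ 3) / 6 := by
  have := int_poly 3 (fun i => ([k ^ 2 * a ^ 2 / 2, -(k ^ 2 * a), k ^ 2 / 2] : List ℝ).getD i 0) p q
  rw [show (fun x : ℝ => (k * (a - x)) ^ 2 / 2) = fun x => ∑ i ∈ Finset.range 3,
    ([k ^ 2 * a ^ 2 / 2, -(k ^ 2 * a), k ^ 2 / 2] : List ℝ).getD i 0 * x ^ i by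
      funext x; simp [Finset.sum_range_succ]; ring, this]
  simp [Finset.sum_range_succ]
  ring

theorem int_Z2 : ∫ x in (253 / 2000 : ℝ)..4106836 / 10000000, (Z2 x - id x) ^ 2 / 2 ≥
    60489237 / 10000000000 := by
  rw [show (fun x : ℝ => (Z2 x - id x) ^ 2 / 2) = fun x => ((Z1 (253 / 2000) - 253 / 2000) /
    (4106836 / 10000000 - 253 / 2000) * (4106836 / 10000000 - x)) ^ 2 / 2 by
      funext x; simp only [Z2, id]; ring, int_sq]
  norm_num [Z1]

theorem heil_ge {θ₀ : ℝ} (h : 9 / 50 ≤ θ₀) :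
    ENNReal.ofReal (2984556 / 10000000) ≤ volume (heil θ₀) := by
  have c1 : Continuous Z1 := by unfold Z1; fun_prop
  have c2 : Continuous Z2 := by unfold Z2; fun_prop
  have c3 : Continuous fun x : ℝ => 1 / 2 - x := by fun_prop
  have c4 : Continuous fun _ : ℝ => (0 : ℝ) := continuous_const
  have m1 := meas_Po 0 (253 / 2000) continuous_id c1
  have m2 := meas_Po (253 / 2000) (4106836 / 10000000) continuous_id c2
  have hl := lower hullC_sym (m1.union m2) (meas_Po 0 (1 / 2) c4 c3)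
    (by
      rintro x y z (⟨⟨h1, h2⟩, h3, h4, h5⟩ | ⟨⟨h1, h2⟩, h3, h4, h5⟩) <;>
        simp only [id] at h1 h2 h3 h4 h5
      · exact ⟨tri_mem (diag_mem h1.le (by linarith)) (arc_mem h1.le h2.le) (Z1_gt h1.le h2.le)
          h3.le h4.le h5.le, h1, h3, h4⟩
      · exact ⟨tri_mem (diag_mem (by linarith) h2.le) (chord_mem h1.le h2.le) (Z2_gt h2)
          h3.le h4.le h5.le, by linarith, h3, h4⟩)
    (by
      rintro x y z ⟨⟨h1, h2⟩, h3, h4, h5⟩
      simp only at h1 h2 h3 h4 h5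
      refine ⟨?_, h1, h3, h4⟩
      have := tet hullC_convex zero_mem (hullC_sym.cyc _ _ _ (hullC_sym.cyc _ _ _ bot_mem))
        (hullC_sym.cyc _ _ _ bot_mem) bot_mem (a := 1 - 2 * x - 2 * y - 2 * z) (b := 2 * x)
        (c := 2 * y) (d := 2 * z) (by linarith) (by linarith) (by linarith) (by linarith) (by ring)
      convert this using 1
      ext <;> simp <;> ring)
  have hsub : co ⁻¹' hullC ⊆ heil θ₀ := by
    intro p hp
    have := convexHull_min (gens_sub h)
      ((convex_convexHull ℝ _).is_linear_preimage mk3_lin) hp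
    rwa [mem_preimage, mk3_co] at this
  refine le_trans ?_ (measure_mono hsub)
  have : (volume : Measure (ℝ × ℝ)).IsAddHaarMeasure := Measure.prod.instIsAddHaarMeasure _ _
  have : (volume : Measure R3).IsAddHaarMeasure := Measure.prod.instIsAddHaarMeasure _ _
  rw [mp_co.measure_preimage (hullC_convex.nullMeasurableSet volume)]
  refine le_trans ?_ hl
  rw [measure_union (by
    rw [Set.disjoint_left]
    intro r h1 h2
    linarith [h1.1.2, h2.1.1]) m2]
  have v1 := (ENNReal.ofReal_le_ofReal int_Z1).trans (vol_Po (by norm_num) continuous_id c1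
    fun x hx => (Z1_gt hx.1.le hx.2.le).le)
  have v2 := (ENNReal.ofReal_le_ofReal int_Z2).trans (vol_Po (by norm_num) continuous_id c2
    fun x hx => (Z2_gt hx.2).le)
  have v3 := vol_Po (p := 0) (q := 1 / 2) (by norm_num) c4 c3 fun x hx => by linarith [hx.2]
  rw [show (fun x : ℝ => (1 / 2 - x - 0) ^ 2 / 2) = fun x => (1 * (1 / 2 - x)) ^ 2 / 2 by
    funext x; ring, int_sq] at v3
  refine le_trans ?_ (add_le_add (mul_le_mul_right (add_le_add v1 v2) 12) (mul_le_mul_right v3 4))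
  rw [← ENNReal.ofReal_add (by norm_num) (by norm_num), ← ENNReal.ofReal_ofNat 12,
    ← ENNReal.ofReal_ofNat 4, ← ENNReal.ofReal_mul (by norm_num), ← ENNReal.ofReal_mul (by norm_num),
    ← ENNReal.ofReal_add (by norm_num) (by norm_num)]
  exact ENNReal.ofReal_le_ofReal (by norm_num)

end Pool.Agent.MP_1e9c11_gt.H81
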