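import Pool.Agent.MP_1e9c11_gt.H81.Body

/-! The volume of the new body, and its width. -/

open MeasureTheory Set

namespace Pool.Agent.MP_1e9c11_gt.H81

/-- Parabolic part of the profile. -/
noncomputable def U1 (x : ℝ) : ℝ := 82945 / 165886 - 289 / 287 * x ^ 2

/-- Polynomial upper bound for the circular part of the profile. -/
noncomputable def U2 (x : ℝ) : ℝ := 1 - 82945 / 165886 - x ^ 2 - x ^ 4 / 2 - x ^ 6 / 2

/-- Straight part of the profile. -/
noncomputable def U3 (x : ℝ) : ℝ := 1143473 / 1124977 - 82945 / 165886 - 289680 / 1124977 * x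

theorem int_U1 : ∫ x in (0 : ℝ)..24 / 289, (U1 x - id x) ^ 2 / 2 ≤ 86686708 / 10000000000 := by
  have := int_poly 5 (fun i => ([6879873025 / 55036329992, -82945 / 165886, -288 / 82369,
    289 / 287, 83521 / 164738] : List ℝ).getD i 0) 0 (24 / 289)
  rw [show (fun x : ℝ => (U1 x - id x) ^ 2 / 2) = fun x => ∑ i ∈ Finset.range 5,
    ([6879873025 / 55036329992, -82945 / 165886, -288 / 82369,
    289 / 287, 83521 / 164738] : List ℝ).getD i 0 * x ^ i by
      funext x; simp [Finset.sum_range_succ, U1]; ring, this]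
  simp [Finset.sum_range_succ]
  norm_num

theorem int_U2 : ∫ x in (24 / 289 : ℝ)..253 / 2000, (U2 x - id x) ^ 2 / 2 ≤
    32091169 / 10000000000 := by
  have := int_poly 13 (fun i => ([6879209481 / 55036329992, -82941 / 165886, 1 / 82943, 1,
    82945 / 331772, 1 / 2, 82945 / 331772, 1 / 2, 5 / 8, 0, 1 / 4, 0, 1 / 8] : List ℝ).getD i 0)
    (24 / 289) (253 / 2000)
  rw [show (fun x : ℝ => (U2 x - id x) ^ 2 / 2) = fun x => ∑ i ∈ Finset.range 13,
    ([6879209481 / 55036329992, -82941 / 165886, 1 / 82943, 1,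
    82945 / 331772, 1 / 2, 82945 / 331772, 1 / 2, 5 / 8, 0, 1 / 4, 0, 1 / 8] : List ℝ).getD i 0 *
      x ^ i by funext x; simp [Finset.sum_range_succ, U2]; ring, this]
  simp [Finset.sum_range_succ]
  norm_num

theorem int_U3 : ∫ x in (253 / 2000 : ℝ)..13767849259 / 33524541586, (U3 x - id x) ^ 2 / 2 ≤
    60484348 / 10000000000 := by
  rw [show (fun x : ℝ => (U3 x - id x) ^ 2 / 2) = fun x => ((1 + 289680 / 1124977) *
    (13767849259 / 33524541586 - x)) ^ 2 / 2 by funext x; simp only [U3, id]; ring, int_sq]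
  norm_num

theorem sqrt_up {x : ℝ} (h0 : 0 ≤ x) (h1 : x ≤ 1 / 2) :
    Real.sqrt (1 - 2 * x ^ 2) ≤ 1 - x ^ 2 - x ^ 4 / 2 - x ^ 6 / 2 := by
  have h2 : x ^ 2 ≤ 1 / 4 := by nlinarith
  have e : 1 - x ^ 2 - x ^ 4 / 2 - x ^ 6 / 2 = 1 - x ^ 2 - (x ^ 2) ^ 2 / 2 - (x ^ 2) ^ 3 / 2 := by ring
  rw [e]
  have h0' := sq_nonneg x
  generalize x ^ 2 = u at h2 h0'
  have a2 : u ^ 2 ≤ 1 / 4 := by nlinarith
  have a3 : u ^ 3 ≤ 1 / 4 := by nlinarith
  refine Real.sqrt_le_iff.2 ⟨by linarith, ?_⟩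
  have : (1 - u - u ^ 2 / 2 - u ^ 3 / 2) ^ 2 = 1 - 2 * u + (5 / 4 * u ^ 4 + u ^ 5 / 2 + u ^ 6 / 4) := by
    ring
  rw [this]
  have : 0 ≤ 5 / 4 * u ^ 4 + u ^ 5 / 2 + u ^ 6 / 4 := by positivity
  linarith

theorem KR_vol : volume KR ≤ ENNReal.ofReal (2984541 / 10000000) := by
  have c1 : Continuous U1 := by unfold U1; fun_prop
  have c2 : Continuous U2 := by unfold U2; fun_prop
  have c3 : Continuous U3 := by unfold U3; fun_prop
  have c4 : Continuous fun x : ℝ => 82945 / 165886 - x := by fun_prop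
  have c5 : Continuous fun _ : ℝ => (0 : ℝ) := continuous_const
  have hu := upper (A := Pc 0 (24 / 289) id U1 ∪ Pc (24 / 289) (253 / 2000) id U2 ∪
      Pc (253 / 2000) (13767849259 / 33524541586) id U3)
    (B := Pc 0 (82945 / 165886) (fun _ => 0) fun x => 82945 / 165886 - x) KR_sym
    (by
      intro x y z h hx hy hz
      obtain ⟨f1, f2⟩ := KR_edge h
      simp only at f1 f2
      rcases le_total x (24 / 289) with a | a
      · have := f1 x ⟨hx, a⟩
        exact Or.inl (Or.inl ⟨⟨hx, a⟩, hy, hz, by simp only [id, U1]; linarith⟩)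
      rcases le_total x (253 / 2000) with b | b
      · have e := f2 x ⟨a, by linarith⟩
        have w1 := sq_w hx (by linarith)
        have w2 := w_ge hx (by linarith)
        have w3 := sqrt_up hx (by linarith)
        refine Or.inl (Or.inr ⟨⟨a, b⟩, hy, hz, ?_⟩)
        simp only [id, U2]
        generalize Real.sqrt (1 - 2 * x ^ 2) = w at e w1 w2 w3
        have : -x + y + z + 82945 / 165886 ≤ w := by
          by_contra hc
          have := mul_lt_mul_of_pos_left (not_le.1 hc) (show 0 < w by linarith)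
          nlinarith
        linarith
      · have e := f2 (144840 / 1143473) ⟨by norm_num, le_rfl⟩
        rw [show (1 - 2 * (144840 / 1143473) ^ 2 : ℝ) = (1124977 / 1143473) ^ 2 by norm_num,
          Real.sqrt_sq (by norm_num)] at e
        exact Or.inr ⟨⟨b, by linarith⟩, hy, hz, by simp only [id, U3]; linarith⟩)
    (by
      intro x y z h hx hy hz
      have := (KR_face h).1
      exact ⟨⟨hx, by linarith⟩, hy, hz, by simp only; linarith⟩)
  refine hu.trans ?_
  have v1 := (vol_Pc (by norm_num) continuous_id c1).trans (ENNReal.ofReal_le_ofReal int_U1)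
  have v2 := (vol_Pc (by norm_num) continuous_id c2).trans (ENNReal.ofReal_le_ofReal int_U2)
  have v3 := (vol_Pc (by norm_num) continuous_id c3).trans (ENNReal.ofReal_le_ofReal int_U3)
  have v4 := vol_Pc (p := 0) (q := 82945 / 165886) (by norm_num) c5 c4
  rw [show (fun x : ℝ => (82945 / 165886 - x - 0) ^ 2 / 2) =
    fun x => (1 * (82945 / 165886 - x)) ^ 2 / 2 by funext x; ring, int_sq] at v4
  have v := (measure_union_le _ _).trans (add_le_add ((measure_union_le _ _).trans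
    (add_le_add v1 v2)) v3)
  refine (add_le_add (mul_le_mul_right v 12) (mul_le_mul_right v4 4)).trans ?_
  rw [← ENNReal.ofReal_add (by norm_num) (by norm_num),
    ← ENNReal.ofReal_add (by norm_num) (by norm_num), ← ENNReal.ofReal_ofNat 12,
    ← ENNReal.ofReal_ofNat 4, ← ENNReal.ofReal_mul (by norm_num), ← ENNReal.ofReal_mul (by norm_num),
    ← ENNReal.ofReal_add (by norm_num) (by norm_num)]
  exact ENNReal.ofReal_le_ofReal (by norm_num)

/-- The new body. -/
def KE : Set E3 := co ⁻¹' KR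

theorem co_cont : Continuous co := by unfold co; fun_prop

theorem co_lin : IsLinearMap ℝ co :=
  ⟨fun x y => by ext <;> simp [co], fun c x => by ext <;> simp [co]⟩

theorem co_mk3 (r : R3) : co (mk3 r) = r := rfl

theorem inner_co (x u : E3) : inner ℝ x u = x 0 * u 0 + x 1 * u 1 + x 2 * u 2 := by
  simp [PiLp.inner_apply, Fin.sum_univ_three]
  ring

theorem KE_compact : IsCompact KE := by
  refine Metric.isCompact_of_isClosed_isBounded (KR_closed.preimage co_cont) ?_
  refine (Metric.isBounded_closedBall (x := (0 : E3)) (r := 2)).subset fun p hp => ?_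
  obtain ⟨h1, h2, h3, h4⟩ := KR_face (x := p 0) (y := p 1) (z := p 2) hp
  rw [mem_closedBall_zero_iff, EuclideanSpace.norm_eq]
  refine Real.sqrt_le_iff.2 ⟨by norm_num, ?_⟩
  simp only [Fin.sum_univ_three, Real.norm_eq_abs, sq_abs]
  have a0 : p 0 ^ 2 ≤ 1 := by rw [sq_le_one_iff_abs_le_one, abs_le]; constructor <;> linarith
  have a1 : p 1 ^ 2 ≤ 1 := by rw [sq_le_one_iff_abs_le_one, abs_le]; constructor <;> linarith
  have a2 : p 2 ^ 2 ≤ 1 := by rw [sq_le_one_iff_abs_le_one, abs_le]; constructor <;> linarith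
  linarith

theorem KE_ball : Metric.ball (0 : E3) (1 / 10) ⊆ KE := by
  intro p hp
  rw [mem_ball_zero_iff] at hp
  have h := fun i => (PiLp.norm_apply_le p i).trans hp.le
  exact small_mem (h 0) (h 1) (h 2)

theorem KE_body : IsBody KE :=
  ⟨KE_compact, KR_convex.is_linear_preimage co_lin,
    ⟨0, interior_maximal KE_ball Metric.isOpen_ball (Metric.mem_ball_self (by norm_num))⟩⟩

theorem KE_lower (u : E3) (hu : ‖u‖ = 1) : 1 ≤ dirWidth KE u := by
  obtain ⟨p, hp, q, hq, h⟩ := wd_all (u 0) (u 1) (u 2)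
  have hc : IsCompact ((fun x => inner ℝ x u) '' KE) := KE_compact.image (by fun_prop)
  have e : Real.sqrt (u 0 ^ 2 + u 1 ^ 2 + u 2 ^ 2) = 1 := by
    rw [← hu, EuclideanSpace.norm_eq]
    simp [Fin.sum_univ_three]
  have h1 := le_csSup hc.bddAbove ⟨mk3 p, show co (mk3 p) ∈ KR from hp, rfl⟩
  have h2 := csInf_le hc.bddBelow ⟨mk3 q, show co (mk3 q) ∈ KR from hq, rfl⟩
  simp only [inner_co] at h1 h2
  unfold dirWidth
  simp only [inner_co]
  have p0 : mk3 p 0 = p.1 := rfl
  have p1 : mk3 p 1 = p.2.1 := rfl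
  have p2 : mk3 p 2 = p.2.2 := rfl
  have q0 : mk3 q 0 = q.1 := rfl
  have q1 : mk3 q 1 = q.2.1 := rfl
  have q2 : mk3 q 2 = q.2.2 := rfl
  rw [p0, p1, p2] at h1
  rw [q0, q1, q2] at h2
  linarith

theorem KE_attain : dirWidth KE (mk3 (24 / 289, 24 / 289, 287 / 289)) ≤ 1 := by
  have hne : ((fun x => inner ℝ x (mk3 (24 / 289, 24 / 289, 287 / 289))) '' KE).Nonempty :=
    ⟨_, 0, KE_ball (Metric.mem_ball_self (by norm_num)), rfl⟩
  have u0 : mk3 (24 / 289, 24 / 289, 287 / 289) 0 = 24 / 289 := rfl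
  have u1 : mk3 (24 / 289, 24 / 289, 287 / 289) 1 = 24 / 289 := rfl
  have u2 : mk3 (24 / 289, 24 / 289, 287 / 289) 2 = 287 / 289 := rfl
  have h1 : sSup ((fun x => inner ℝ x (mk3 (24 / 289, 24 / 289, 287 / 289))) '' KE) ≤
      1 - 287 / 289 * (82945 / 165886) := by
    refine csSup_le hne ?_
    rintro _ ⟨p, hp, rfl⟩
    have hp' : (p 0, p 1, p 2) ∈ KR := hp
    have e1 := (KR_edge hp').2 (24 / 289) ⟨le_rfl, by norm_num⟩
    have e2 := (KR_edge (KR_sym.cyc _ _ _ hp')).2 (24 / 289) ⟨le_rfl, by norm_num⟩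
    rw [show (1 - 2 * (24 / 289) ^ 2 : ℝ) = (287 / 289) ^ 2 by norm_num,
      Real.sqrt_sq (by norm_num)] at e1 e2
    simp only [inner_co, u0, u1, u2] at e1 e2 ⊢
    linarith
  have h2 : -(287 / 289 * (82945 / 165886)) ≤
      sInf ((fun x => inner ℝ x (mk3 (24 / 289, 24 / 289, 287 / 289))) '' KE) := by
    refine le_csInf hne ?_
    rintro _ ⟨p, hp, rfl⟩
    obtain ⟨a1, a2, a3, a4⟩ := KR_face (x := p 0) (y := p 1) (z := p 2) hp
    simp only [inner_co, u0, u1, u2]
    linarith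
  unfold dirWidth
  linarith

theorem KE_width : HasWidth KE 1 := by
  have hn : ‖mk3 (24 / 289, 24 / 289, 287 / 289)‖ = 1 := by
    rw [EuclideanSpace.norm_eq]
    simp [Fin.sum_univ_three, mk3]
    norm_num
  refine ⟨⟨_, hn, le_antisymm (KE_lower _ hn) KE_attain⟩, ?_⟩
  rintro _ ⟨u, hu, rfl⟩
  exact KE_lower u hu

theorem KE_vol : volume KE ≤ ENNReal.ofReal (2984541 / 10000000) :=
  (mp_co.measure_preimage_le KR).trans KR_vol

end Pool.Agent.MP_1e9c11_gt.H81
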