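import Mathlib

/-! Volumes of sets in `ℝ × ℝ × ℝ` with the rotational symmetry of the regular tetrahedron. -/

open MeasureTheory Set

namespace Pool.Agent.MP_1e9c11_gt.H81

/-- Coordinate space. -/
abbrev R3 : Type := ℝ × ℝ × ℝ

theorem lint_Icc {f : ℝ → ℝ} (hf : Continuous f) {p q : ℝ} (hpq : p ≤ q)
    (h0 : ∀ x ∈ Icc p q, 0 ≤ f x) :
    ∫⁻ x in Icc p q, ENNReal.ofReal (f x) = ENNReal.ofReal (∫ x in p..q, f x) := by
  rw [intervalIntegral.integral_of_le hpq, ← integral_Icc_eq_integral_Ioc,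
    ofReal_integral_eq_lintegral_ofReal hf.integrableOn_Icc]
  exact (ae_restrict_iff' measurableSet_Icc).2 (Filter.Eventually.of_forall h0)

theorem lint_Ioo {f : ℝ → ℝ} (hf : Continuous f) {p q : ℝ} (hpq : p ≤ q)
    (h0 : ∀ x ∈ Icc p q, 0 ≤ f x) :
    ∫⁻ x in Ioo p q, ENNReal.ofReal (f x) = ENNReal.ofReal (∫ x in p..q, f x) := by
  rw [← lint_Icc hf hpq h0, setLIntegral_congr Ioo_ae_eq_Icc]

theorem int_tri (l m : ℝ) : ∫ x in l..m, (m - x) = (m - l) ^ 2 / 2 := by
  rw [intervalIntegral.integral_sub (by simp) (by simp)]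
  simp
  ring

theorem tri_closed (l m : ℝ) :
    volume {r : ℝ × ℝ | l ≤ r.1 ∧ l ≤ r.2 ∧ r.1 + r.2 ≤ l + m} ≤
      ENNReal.ofReal ((m - l) ^ 2 / 2) := by
  have hm : MeasurableSet {r : ℝ × ℝ | l ≤ r.1 ∧ l ≤ r.2 ∧ r.1 + r.2 ≤ l + m} := by
    measurability
  rw [Measure.volume_eq_prod, Measure.prod_apply hm]
  rcases le_or_gt l m with h | h
  · rw [← int_tri, ← lint_Icc (by fun_prop) h (fun x hx => by linarith [hx.2]),
      ← lintegral_indicator measurableSet_Icc]
    refine lintegral_mono fun x => ?_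
    by_cases hx : x ∈ Icc l m
    · rw [indicator_of_mem hx, show m - x = l + m - x - l by ring, ← Real.volume_Icc]
      refine measure_mono fun w hw => ?_
      exact ⟨hw.2.1, by have := hw.2.2; simp only at this; linarith⟩
    · have : Prod.mk x ⁻¹' {r : ℝ × ℝ | l ≤ r.1 ∧ l ≤ r.2 ∧ r.1 + r.2 ≤ l + m} = ∅ := by
        ext w
        simp only [mem_preimage, mem_ofPred_eq, mem_empty_iff_false, iff_false]
        rintro ⟨h1, h2, h3⟩
        exact hx ⟨h1, by linarith⟩
      simp [this]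
  · have : ∀ x, Prod.mk x ⁻¹' {r : ℝ × ℝ | l ≤ r.1 ∧ l ≤ r.2 ∧ r.1 + r.2 ≤ l + m} = ∅ := by
      intro x
      ext w
      simp only [mem_preimage, mem_ofPred_eq, mem_empty_iff_false, iff_false]
      rintro ⟨h1, h2, h3⟩
      linarith
    simp [this]

theorem tri_open (l m : ℝ) (h : l ≤ m) :
    ENNReal.ofReal ((m - l) ^ 2 / 2) ≤
      volume {r : ℝ × ℝ | l < r.1 ∧ l < r.2 ∧ r.1 + r.2 < l + m} := by
  have hm : MeasurableSet {r : ℝ × ℝ | l < r.1 ∧ l < r.2 ∧ r.1 + r.2 < l + m} := by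
    measurability
  rw [Measure.volume_eq_prod, Measure.prod_apply hm]
  rw [← int_tri, ← lint_Ioo (by fun_prop) h (fun x hx => by linarith [hx.2]),
    ← lintegral_indicator measurableSet_Ioo]
  refine lintegral_mono fun x => ?_
  by_cases hx : x ∈ Ioo l m
  · rw [indicator_of_mem hx, show m - x = l + m - x - l by ring, ← Real.volume_Ioo]
    refine measure_mono fun w hw => ?_
    exact ⟨hx.1, hw.1, by have := hw.2; simp only; linarith⟩
  · simp [indicator_of_notMem hx]

/-- Closed piece: triangles stacked over an interval. -/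
def Pc (p q : ℝ) (l m : ℝ → ℝ) : Set R3 :=
  {r | r.1 ∈ Icc p q ∧ l r.1 ≤ r.2.1 ∧ l r.1 ≤ r.2.2 ∧ r.2.1 + r.2.2 ≤ l r.1 + m r.1}

/-- Open piece. -/
def Po (p q : ℝ) (l m : ℝ → ℝ) : Set R3 :=
  {r | r.1 ∈ Ioo p q ∧ l r.1 < r.2.1 ∧ l r.1 < r.2.2 ∧ r.2.1 + r.2.2 < l r.1 + m r.1}

theorem meas_Pc (p q : ℝ) {l m : ℝ → ℝ} (hl : Continuous l) (hm : Continuous m) :
    MeasurableSet (Pc p q l m) := by
  refine IsClosed.measurableSet ?_
  refine IsClosed.and (isClosed_Icc.preimage continuous_fst) (IsClosed.and (isClosed_le ?_ ?_)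
    (IsClosed.and (isClosed_le ?_ ?_) (isClosed_le ?_ ?_))) <;> fun_prop

theorem meas_Po (p q : ℝ) {l m : ℝ → ℝ} (hl : Continuous l) (hm : Continuous m) :
    MeasurableSet (Po p q l m) := by
  refine IsOpen.measurableSet ?_
  refine IsOpen.and (isOpen_Ioo.preimage continuous_fst) (IsOpen.and (isOpen_lt ?_ ?_)
    (IsOpen.and (isOpen_lt ?_ ?_) (isOpen_lt ?_ ?_))) <;> fun_prop

theorem vol_Pc {p q : ℝ} (hpq : p ≤ q) {l m : ℝ → ℝ} (hl : Continuous l) (hm : Continuous m) :
    volume (Pc p q l m) ≤ ENNReal.ofReal (∫ x in p..q, (m x - l x) ^ 2 / 2) := by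
  rw [Measure.volume_eq_prod, Measure.prod_apply (meas_Pc p q hl hm),
    ← lint_Icc (by fun_prop) hpq (fun x _ => by positivity), ← lintegral_indicator measurableSet_Icc]
  refine lintegral_mono fun x => ?_
  by_cases hx : x ∈ Icc p q
  · rw [indicator_of_mem hx]
    exact le_trans (measure_mono fun w hw => hw.2) (tri_closed (l x) (m x))
  · have : Prod.mk x ⁻¹' Pc p q l m = ∅ := by
      ext w
      simp only [mem_preimage, mem_empty_iff_false, iff_false]
      exact fun h => hx h.1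
    simp [this]

theorem vol_Po {p q : ℝ} (hpq : p ≤ q) {l m : ℝ → ℝ} (hl : Continuous l) (hm : Continuous m)
    (h : ∀ x ∈ Ioo p q, l x ≤ m x) :
    ENNReal.ofReal (∫ x in p..q, (m x - l x) ^ 2 / 2) ≤ volume (Po p q l m) := by
  rw [Measure.volume_eq_prod, Measure.prod_apply (meas_Po p q hl hm),
    ← lint_Ioo (by fun_prop) hpq (fun x _ => by positivity), ← lintegral_indicator measurableSet_Ioo]
  refine lintegral_mono fun x => ?_
  by_cases hx : x ∈ Ioo p q
  · rw [indicator_of_mem hx]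
    exact le_trans (tri_open (l x) (m x) (h x hx)) (measure_mono fun w hw => ⟨hx, hw⟩)
  · simp [indicator_of_notMem hx]

/-- Cyclic permutation of the coordinates. -/
def cyc (r : R3) : R3 := (r.2.1, r.2.2, r.1)

/-- A sign. -/
def sg (b : Bool) : ℝ := if b then 1 else -1

/-- Sign changes. -/
def flp (a b c : Bool) (r : R3) : R3 := (sg a * r.1, sg b * r.2.1, sg c * r.2.2)

theorem mp_cyc : MeasurePreserving cyc volume volume :=
  (volume_preserving_prodAssoc (α₁ := ℝ) (β₁ := ℝ) (γ₁ := ℝ)).comp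
    (Measure.measurePreserving_swap (μ := (volume : Measure ℝ)) (ν := (volume : Measure (ℝ × ℝ))))

theorem mp_sg (b : Bool) : MeasurePreserving (fun x : ℝ => sg b * x) volume volume := by
  cases b
  · simpa [sg] using Measure.measurePreserving_neg (volume : Measure ℝ)
  · have : (fun x : ℝ => sg true * x) = id := by funext x; simp [sg]
    rw [this]
    exact MeasurePreserving.id _

theorem mp_flp (a b c : Bool) : MeasurePreserving (flp a b c) volume volume :=
  (mp_sg a).prod ((mp_sg b).prod (mp_sg c))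

/-- Invariance under the rotation group of the tetrahedron. -/
structure Sym (K : Set R3) : Prop where
  flip : ∀ x y z : ℝ, (x, y, z) ∈ K → (-x, -y, z) ∈ K
  cyc : ∀ x y z : ℝ, (x, y, z) ∈ K → (y, z, x) ∈ K

theorem Sym.flip2 {K : Set R3} (h : Sym K) (x y z : ℝ) (hx : (x, y, z) ∈ K) : (x, -y, -z) ∈ K :=
  h.cyc _ _ _ (h.cyc _ _ _ (h.flip _ _ _ (h.cyc _ _ _ hx)))

theorem Sym.flip3 {K : Set R3} (h : Sym K) (x y z : ℝ) (hx : (x, y, z) ∈ K) : (-x, y, -z) ∈ K :=
  h.cyc _ _ _ (h.flip _ _ _ (h.cyc _ _ _ (h.cyc _ _ _ hx)))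

/-- The three rotated copies of a set. -/
def tri3 (A : Set R3) : Set R3 := A ∪ cyc ⁻¹' A ∪ cyc ⁻¹' (cyc ⁻¹' A)

theorem upper {K A B : Set R3} (hK : Sym K)
    (hA : ∀ x y z : ℝ, (x, y, z) ∈ K → 0 ≤ x → x ≤ y → x ≤ z → (x, y, z) ∈ A)
    (hB : ∀ x y z : ℝ, (-x, -y, -z) ∈ K → 0 ≤ x → 0 ≤ y → 0 ≤ z → (x, y, z) ∈ B) :
    volume K ≤ 12 * volume A + 4 * volume B := by
  have h3 : volume (tri3 A) ≤ 3 * volume A := by
    refine (measure_union_le _ _).trans ((add_le_add (measure_union_le _ _) le_rfl).trans ?_)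
    have e1 := mp_cyc.measure_preimage_le A
    have e2 := (mp_cyc.measure_preimage_le (cyc ⁻¹' A)).trans e1
    calc _ ≤ volume A + volume A + volume A := by gcongr
      _ = 3 * volume A := by ring
  have hpos : ∀ x y z : ℝ, (x, y, z) ∈ K → 0 ≤ x → 0 ≤ y → 0 ≤ z → (x, y, z) ∈ tri3 A := by
    intro x y z h hx hy hz
    rcases le_total x y with h1 | h1 <;> rcases le_total y z with h2 | h2 <;>
      rcases le_total x z with h3 | h3
    all_goals first
      | exact Or.inl (Or.inl (hA x y z h hx (by linarith) (by linarith)))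
      | exact Or.inl (Or.inr (hA y z x (hK.cyc _ _ _ h) hy (by linarith) (by linarith)))
      | exact Or.inr (hA z x y (hK.cyc _ _ _ (hK.cyc _ _ _ h)) hz (by linarith) (by linarith))
  have hsub : K ⊆ (flp true true true ⁻¹' tri3 A ∪ flp false false true ⁻¹' tri3 A ∪
      flp false true false ⁻¹' tri3 A ∪ flp true false false ⁻¹' tri3 A) ∪
      (flp false false false ⁻¹' B ∪ flp true true false ⁻¹' B ∪
      flp true false true ⁻¹' B ∪ flp false true true ⁻¹' B) := by
    rintro ⟨x, y, z⟩ h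
    simp only [mem_union, mem_preimage, flp, sg, if_true, Bool.false_eq_true, if_false, one_mul,
      neg_mul]
    rcases le_total 0 x with hx | hx <;> rcases le_total 0 y with hy | hy <;>
      rcases le_total 0 z with hz | hz
    · exact Or.inl (Or.inl (Or.inl (Or.inl (hpos _ _ _ h hx hy hz))))
    · exact Or.inr (Or.inl (Or.inl (Or.inr (hB _ _ _ (by simpa using hK.flip _ _ _ h) hx hy
        (by linarith)))))
    · exact Or.inr (Or.inl (Or.inr (hB _ _ _ (by simpa using hK.flip3 _ _ _ h) hx (by linarith) hz)))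
    · exact Or.inl (Or.inr (hpos _ _ _ (hK.flip2 _ _ _ h) hx (by linarith) (by linarith)))
    · exact Or.inr (Or.inr (hB _ _ _ (by simpa using hK.flip2 _ _ _ h) (by linarith) hy hz))
    · exact Or.inl (Or.inl (Or.inr (hpos _ _ _ (hK.flip3 _ _ _ h) (by linarith) hy (by linarith))))
    · exact Or.inl (Or.inl (Or.inl (Or.inr (hpos _ _ _ (hK.flip _ _ _ h) (by linarith)
        (by linarith) hz))))
    · exact Or.inr (Or.inl (Or.inl (Or.inl (hB _ _ _ (by simpa using h) (by linarith) (by linarith)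
        (by linarith)))))
  have four : ∀ (S S1 S2 S3 S4 : Set R3), volume S1 ≤ volume S → volume S2 ≤ volume S →
      volume S3 ≤ volume S → volume S4 ≤ volume S → volume (S1 ∪ S2 ∪ S3 ∪ S4) ≤ 4 * volume S := by
    intro S S1 S2 S3 S4 e1 e2 e3 e4
    calc _ ≤ volume (S1 ∪ S2 ∪ S3) + volume S4 := measure_union_le _ _
      _ ≤ volume (S1 ∪ S2) + volume S3 + volume S4 := by gcongr; exact measure_union_le _ _
      _ ≤ volume S1 + volume S2 + volume S3 + volume S4 := by gcongr; exact measure_union_le _ _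
      _ ≤ volume S + volume S + volume S + volume S := by gcongr
      _ = 4 * volume S := by ring
  refine (measure_mono hsub).trans ((measure_union_le _ _).trans (add_le_add ?_ ?_))
  · refine (four (tri3 A) _ _ _ _ ?_ ?_ ?_ ?_).trans ?_
    any_goals exact (mp_flp _ _ _).measure_preimage_le _
    calc 4 * volume (tri3 A) ≤ 4 * (3 * volume A) := by gcongr
      _ = 12 * volume A := by ring
  · refine four B _ _ _ _ ?_ ?_ ?_ ?_ <;> exact (mp_flp _ _ _).measure_preimage_le _

theorem lower {C A B : Set R3} (hC : Sym C) (mA : MeasurableSet A) (mB : MeasurableSet B)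
    (hA : ∀ x y z : ℝ, (x, y, z) ∈ A → (x, y, z) ∈ C ∧ 0 < x ∧ x < y ∧ x < z)
    (hB : ∀ x y z : ℝ, (x, y, z) ∈ B → (-x, -y, -z) ∈ C ∧ 0 < x ∧ 0 < y ∧ 0 < z) :
    12 * volume A + 4 * volume B ≤ volume C := by
  have m1 := mp_cyc.measurable mA
  have m2 := mp_cyc.measurable m1
  have m3 : MeasurableSet (tri3 A) := (mA.union m1).union m2
  have h3 : volume (tri3 A) = 3 * volume A := by
    unfold tri3
    rw [measure_union _ m2, measure_union _ m1, mp_cyc.measure_preimage m1.nullMeasurableSet,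
      mp_cyc.measure_preimage mA.nullMeasurableSet]
    · ring
    · rw [Set.disjoint_left]
      rintro ⟨x, y, z⟩ h h'
      have := hA _ _ _ h
      have := hA _ _ _ h'
      simp only at *
      linarith [this.2.2.2]
    · rw [Set.disjoint_left]
      rintro ⟨x, y, z⟩ (h | h) h'
      · have a1 := hA _ _ _ h
        have a2 := hA _ _ _ h'
        simp only [cyc] at a2
        linarith [a1.2.2.2, a2.2.2.1]
      · have a1 := hA _ _ _ h
        have a2 := hA _ _ _ h'
        simp only [cyc] at a1 a2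
        linarith [a1.2.2.1, a2.2.2.2]
  have hT : ∀ x y z : ℝ, (x, y, z) ∈ tri3 A → (x, y, z) ∈ C ∧ 0 < x ∧ 0 < y ∧ 0 < z := by
    rintro x y z ((h | h) | h)
    · obtain ⟨a, b, c, d⟩ := hA _ _ _ h
      exact ⟨a, b, by linarith, by linarith⟩
    · obtain ⟨a, b, c, d⟩ := hA _ _ _ h
      exact ⟨hC.cyc _ _ _ (hC.cyc _ _ _ a), by simp only at *; linarith, b,
        by simp only at *; linarith⟩
    · obtain ⟨a, b, c, d⟩ := hA _ _ _ h
      simp only [cyc] at a b c d
      exact ⟨hC.cyc _ _ _ a, by linarith, by linarith, b⟩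
  let S : Bool × Bool × Bool → Set R3 := fun s =>
    flp s.1 s.2.1 s.2.2 ⁻¹' (if xor s.1 (xor s.2.1 s.2.2) then tri3 A else B)
  have mS : ∀ s, MeasurableSet (S s) := fun s =>
    (mp_flp _ _ _).measurable (by split_ifs; exacts [m3, mB])
  have pS : ∀ s, ∀ r ∈ S s, r ∈ C ∧ 0 < sg s.1 * r.1 ∧ 0 < sg s.2.1 * r.2.1 ∧
      0 < sg s.2.2 * r.2.2 := by
    rintro ⟨a, b, c⟩ ⟨x, y, z⟩ h
    cases a <;> cases b <;> cases c <;>
      simp only [S, mem_preimage, flp, sg, if_true, Bool.false_eq_true, if_false, one_mul,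
        neg_mul, Bool.xor_false, Bool.xor_true, Bool.not_true, Bool.not_false] at h ⊢
    · exact ⟨by simpa using (hB _ _ _ h).1, (hB _ _ _ h).2⟩
    · exact ⟨by simpa using hC.flip _ _ _ (hT _ _ _ h).1, (hT _ _ _ h).2⟩
    · exact ⟨by simpa using hC.flip3 _ _ _ (hT _ _ _ h).1, (hT _ _ _ h).2⟩
    · exact ⟨by simpa using hC.flip2 _ _ _ (hB _ _ _ h).1, (hB _ _ _ h).2⟩
    · exact ⟨by simpa using hC.flip2 _ _ _ (hT _ _ _ h).1, (hT _ _ _ h).2⟩
    · exact ⟨by simpa using hC.flip3 _ _ _ (hB _ _ _ h).1, (hB _ _ _ h).2⟩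
    · exact ⟨by simpa using hC.flip _ _ _ (hB _ _ _ h).1, (hB _ _ _ h).2⟩
    · exact hT _ _ _ h
  have key : ∀ (a b : Bool) (t : ℝ), 0 < sg a * t → 0 < sg b * t → a = b := by
    intro a b t h1 h2
    cases a <;> cases b <;> simp only [sg, if_true, Bool.false_eq_true, if_false] at h1 h2 ⊢ <;>
      linarith
  have dS : Pairwise (Function.onFun Disjoint S) := by
    intro s s' hne
    rw [Function.onFun, Set.disjoint_left]
    intro r h h'
    obtain ⟨-, a1, a2, a3⟩ := pS s r h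
    obtain ⟨-, b1, b2, b3⟩ := pS s' r h'
    exact hne (Prod.ext (key _ _ _ a1 b1) (Prod.ext (key _ _ _ a2 b2) (key _ _ _ a3 b3)))
  have vS : ∀ s, volume (S s) = if xor s.1 (xor s.2.1 s.2.2) then 3 * volume A else volume B := by
    intro s
    simp only [S]
    split_ifs
    · rw [(mp_flp _ _ _).measure_preimage m3.nullMeasurableSet, h3]
    · rw [(mp_flp _ _ _).measure_preimage mB.nullMeasurableSet]
  have hle : volume (⋃ s, S s) ≤ volume C := measure_mono (iUnion_subset fun s r hr => (pS s r hr).1)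
  rw [measure_iUnion dS mS, tsum_fintype] at hle
  refine le_of_eq_of_le ?_ hle
  simp only [vS, Fintype.sum_prod_type, Fintype.sum_bool]
  simp
  ring

theorem int_poly (n : ℕ) (c : ℕ → ℝ) (p q : ℝ) :
    ∫ x in p..q, ∑ i ∈ Finset.range n, c i * x ^ i =
      ∑ i ∈ Finset.range n, c i * ((q ^ (i + 1) - p ^ (i + 1)) / (i + 1)) := by
  rw [intervalIntegral.integral_finsetSum fun i _ =>
    (Continuous.intervalIntegrable (by fun_prop) _ _)]
  refine Finset.sum_congr rfl fun i _ => ?_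
  rw [intervalIntegral.integral_const_mul, integral_pow]

/-- Coordinates of a point of Euclidean space. -/
def co (p : EuclideanSpace ℝ (Fin 3)) : R3 := (p 0, p 1, p 2)

theorem mp_co : MeasurePreserving co volume volume := by
  have h1 := PiLp.volume_preserving_ofLp (Fin 3)
  have h2 := volume_preserving_piFinSuccAbove (fun _ : Fin 3 => ℝ) 0
  have h3 := (MeasurePreserving.id (volume : Measure ℝ)).prod (volume_preserving_finTwoArrow ℝ)
  exact h3.comp (h2.comp h1)

end Pool.Agent.MP_1e9c11_gt.H81
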